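import Mathlib
import Pool.Agent.Y203.QC.Sym
import Pool.Agent.Helper961.Aub.XExact

/-!
Job QC-XEXACT: the physical move at exact states (machine with borrow).
-/

set_option autoImplicit false

open Set Filter Topology

namespace Pool.Agent.Y203.QC

open Pool.Agent.Aub (mm lam Stk dt stp Sc S1 S2 Qx gT gt cT ct hC hX Dg Ty stg rho mu posn peel cE cF
  DD rb subTy subP subC sub broken Clamp Ix Zs stk reg mkz Wt f0 f1 f4 f6 g0 g1 M0 M4 M6 N1 tyj pj
  Cell sT Dle vb tyn)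
open Pool.Agent.Aub (X06_mm X06_stp0 X06_stp1 X06_S1 X06_S2 X06_Qx X06_Sc X06_cb X06_ct X06_cT X06_gT
  X06_v4 X06_v5 X06_v6 X06_v7 X06_v8 X06_v9)

/-- borrow bit -/
def Y06_bb (a b : ℕ) : ℕ := if b = 0 ∧ 0 < a then 1 else 0

theorem Y06_bT {a b : ℕ} {t : ℝ} (h0 : (b : ℝ) ≤ t) (h1 : t ≤ b + 1/16) :
    bT a t = Y06_bb a b := by
  unfold bT Y06_bb
  rcases Nat.eq_zero_or_pos b with h | h
  · subst h
    push_cast at h0 h1
    rw [X06_stp0 (a := 3/8) (b := 1/2) (by norm_num) (by linarith)]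
    rcases Nat.eq_zero_or_pos a with h' | h'
    · subst h'
      rw [X06_stp0 (a := 1/4) (b := 3/8) (by norm_num) (by norm_num), if_neg (by omega)]
      norm_num
    · have : (1 : ℝ) ≤ a := by exact_mod_cast h'
      rw [X06_stp1 (a := 1/4) (b := 3/8) (by norm_num) (by linarith), if_pos ⟨rfl, h'⟩]
      norm_num
  · have : (1 : ℝ) ≤ b := by exact_mod_cast h
    rw [X06_stp1 (a := 3/8) (b := 1/2) (by norm_num) (by linarith), if_neg (by omega)]
    norm_num

theorem Y06_bt {a b : ℕ} {t : ℝ} (h0 : (b : ℝ) ≤ t) (h1 : t ≤ b + 1/16) :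
    bt a t = Y06_bb a b := by
  unfold bt Y06_bb
  rcases Nat.eq_zero_or_pos b with h | h
  · subst h
    push_cast at h0 h1
    rw [X06_stp0 (a := 1/8) (b := 1/4) (by norm_num) (by linarith)]
    rcases Nat.eq_zero_or_pos a with h' | h'
    · subst h'
      rw [X06_stp0 (a := 1/2) (b := 3/4) (by norm_num) (by norm_num), if_neg (by omega)]
      norm_num
    · have : (1 : ℝ) ≤ a := by exact_mod_cast h'
      rw [X06_stp1 (a := 1/2) (b := 3/4) (by norm_num) (by linarith), if_pos ⟨rfl, h'⟩]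
      norm_num
  · have : (1 : ℝ) ≤ b := by exact_mod_cast h
    rw [X06_stp1 (a := 1/8) (b := 1/4) (by norm_num) (by linarith), if_neg (by omega)]
    norm_num

theorem Y06_low (a b : ℕ) (ha : a ≤ mm) (hb : b ≤ mm) : (low a b).1 ≤ mm ∧ (low a b).2 ≤ mm := by
  have h1 : mm = 4096 := rfl
  have h2 : bb = 4095 := rfl
  unfold low
  split_ifs with g1 g2
  · exact ⟨by show a + 1 ≤ mm; omega, by show 1 ≤ mm; omega⟩
  · exact ⟨by show a - 1 ≤ mm; omega, by show bb ≤ mm; omega⟩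
  · exact ⟨ha, hb⟩

theorem Y06_Hi {a b : ℕ} (ha : a ≤ mm) (hb : b ≤ mm) :
    carryHi a b = ((low a b).1 : ℕ) := by
  have h1 : mm = 4096 := rfl
  unfold carryHi
  rw [X06_ct ha hb le_rfl (by linarith), Y06_bT le_rfl (by linarith)]
  unfold low X06_cb Y06_bb
  by_cases g1 : b = mm ∧ a < mm
  · rw [if_pos g1, if_pos g1, if_neg (by omega)]
    push_cast
    ring
  · rw [if_neg g1, if_neg g1]
    by_cases g2 : b = 0 ∧ 0 < a
    · rw [if_pos g2, if_pos g2]
      show (a : ℝ) + ((0 : ℕ) : ℝ) - ((1 : ℕ) : ℝ) = ((a - 1 : ℕ) : ℝ)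
      rw [Nat.cast_sub (by omega)]
      push_cast
      ring
    · rw [if_neg g2, if_neg g2]
      push_cast
      ring

theorem Y06_Lo {a b : ℕ} (ha : a ≤ mm) (hb : b ≤ mm) :
    carryLo a b = ((low a b).2 : ℕ) := by
  have h1 : mm = 4096 := rfl
  have h2 : (bb : ℝ) = 4095 := by unfold bb; norm_num
  unfold carryLo
  rw [X06_cT ha hb le_rfl (by linarith), Y06_bt le_rfl (by linarith)]
  unfold low X06_cb Y06_bb
  by_cases g1 : b = mm ∧ a < mm
  · rw [if_pos g1, if_pos g1, if_neg (by omega), g1.1, h2, X06_mm]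
    push_cast
    norm_num
  · rw [if_neg g1, if_neg g1]
    by_cases g2 : b = 0 ∧ 0 < a
    · rw [if_pos g2, if_pos g2, g2.1]
      push_cast
      ring
    · rw [if_neg g2, if_neg g2]
      push_cast
      ring

theorem Y06_GG (D : Fin 3 → ℕ) (y : ℕ) (t : ℝ) (hD : ∀ k, D k ≤ mm) (hy : y ≤ mm)
    (ht : (D 2 : ℝ) + t = (y : ℕ)) (k : Fin 3) :
    GG (D 0) (D 1) (D 2) t k = (carry D y k : ℕ) ∧ carry D y k ≤ mm := by
  have h0 := hD 0
  have h1 := hD 1
  have h3 := Y06_low (D 1) y h1 hy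
  have h4 := Y06_low (D 0) (low (D 1) y).1 h0 h3.1
  have e1 : carryHi (D 1) ((D 2 : ℝ) + t) = ((low (D 1) y).1 : ℕ) := by
    rw [ht]; exact Y06_Hi h1 hy
  have e2 : carryLo (D 1) ((D 2 : ℝ) + t) = ((low (D 1) y).2 : ℕ) := by
    rw [ht]; exact Y06_Lo h1 hy
  fin_cases k
  · show carryHi (D 0) (carryHi (D 1) ((D 2 : ℝ) + t)) = (carry D y 0 : ℕ) ∧ carry D y 0 ≤ mm
    rw [e1, Y06_Hi h0 h3.1]
    exact ⟨rfl, h4.1⟩
  · show carryLo (D 0) (carryHi (D 1) ((D 2 : ℝ) + t)) = (carry D y 1 : ℕ) ∧ carry D y 1 ≤ mm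
    rw [e1, Y06_Lo h0 h3.1]
    exact ⟨rfl, h4.2⟩
  · show carryLo (D 1) ((D 2 : ℝ) + t) = (carry D y 2 : ℕ) ∧ carry D y 2 ≤ mm
    rw [e2]
    exact ⟨rfl, h3.2⟩

theorem Y06_tu (a e : Cell) : (tt a e = 0 ∧ uu a e = 0) ∨ (tt a e = 1 ∧ uu a e = 0) ∨
    (tt a e = 0 ∧ uu a e = 1) := by
  have h1 : mm = 4096 := rfl
  unfold tt uu
  split_ifs with g1 g2 g2
  · omega
  · simp
  · simp
  · simp

theorem Y06_Sg (a e : Cell) {t : ℝ} (h : |t - ((tt a e : ℝ) - uu a e)| ≤ 1/8) :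
    Sg t = (tt a e : ℝ) - uu a e := by
  have h' := abs_le.1 h
  unfold Sg Sc
  rcases Y06_tu a e with ⟨g1, g2⟩ | ⟨g1, g2⟩ | ⟨g1, g2⟩
  · rw [g1, g2] at h' ⊢
    push_cast at h' ⊢
    rw [X06_stp0 (by norm_num) (by linarith), X06_stp0 (by norm_num) (by linarith)]
  · rw [g1, g2] at h' ⊢
    push_cast at h' ⊢
    rw [X06_stp1 (by norm_num) (by linarith), X06_stp0 (by norm_num) (by linarith)]
  · rw [g1, g2] at h' ⊢
    push_cast at h' ⊢
    rw [X06_stp0 (by norm_num) (by linarith), X06_stp1 (by norm_num) (by linarith)]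

theorem Y06_D (a e : Cell) (ha : ∀ k, a.D k ≤ mm) : a.D 2 + tt a e - uu a e ≤ mm ∧
    (a.D 2 : ℝ) + ((tt a e : ℝ) - uu a e) = ((a.D 2 + tt a e - uu a e : ℕ) : ℝ) := by
  have h2 := ha 2
  have hu : uu a e ≤ a.D 2 + tt a e := by
    unfold uu; split_ifs with h <;> omega
  have ht : a.D 2 + tt a e ≤ mm := by
    unfold tt; split_ifs with h <;> omega
  refine ⟨by omega, ?_⟩
  rw [Nat.cast_sub hu]
  push_cast
  ring

/-- TARGET -/
theorem cm_exact (cc : Clamp (5/4)) (cx : Clamp (mm + 1/2)) (b : Bool) (s d : Fin 3)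
    (hsd : s ≠ d) (r : Bool) (z : Zs) (hR : ∀ k, k ≠ 0 → |reg z k| ≤ 1/16)
    (hw : Wt b z = 1) (a e : Cell) (ha : ∀ k, a.D k ≤ mm) (he : ∀ k, e.D k ≤ mm)
    (x : Fin 5 → ℝ)
    (hx : ∀ tr, 0 ≤ x tr ∧ x tr ≤ mm + 1/16)
    (hz : ∀ tr, stk z s tr = a.val tr + x tr / lam)
    (hy : ∀ tr, 0 ≤ stk z d tr ∧ stk z d tr ≤ mm + 1/16)
    (hy01 : stk z d 0 ≤ 1 + 1/16 ∧ stk z d 1 ≤ 1 + 1/16)
    (hx01 : x 0 ≤ 1 + 1/16 ∧ x 1 ≤ 1 + 1/16)
    (hye : a.b = false → ∀ tr, 0 ≤ stk z d tr - e.val tr ∧ stk z d tr - e.val tr ≤ 1/16) :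
    stk (cm cc cx b s d (if r then 1 else 0) z) = fun i tr =>
      if i = s then x tr
      else if i = d then (newc r a e).val tr +
        (stk z d tr + (if tr = 2 then (bb : ℝ) * uu a e - bb * tt a e else 0)) / lam
      else stk z i tr := by
  have hmm := X06_mm
  have hlam : lam = 131072 := rfl
  have hlam0 : (0 : ℝ) < lam := by rw [hlam]; norm_num
  have hxl : ∀ tr, 0 ≤ x tr / lam ∧ x tr / lam ≤ 1/16 := by
    intro tr
    obtain ⟨h1, h2⟩ := hx tr
    refine ⟨div_nonneg h1 hlam0.le, ?_⟩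
    rw [div_le_iff₀ hlam0, hlam]
    rw [hmm] at h2
    linarith
  have zs0 : stk z s 0 = vb a.b + x 0 / lam := hz 0
  have zs1 : stk z s 1 = vb a.c + x 1 / lam := hz 1
  have zs2 : stk z s 2 = a.D 0 + x 2 / lam := hz 2
  have zs3 : stk z s 3 = a.D 1 + x 3 / lam := hz 3
  have zs4 : stk z s 4 = a.D 2 + x 4 / lam := hz 4
  have haR : ∀ k, ((a.D k : ℕ) : ℝ) ≤ mm := fun k => by exact_mod_cast ha k
  have haR0 : ∀ k, (0 : ℝ) ≤ ((a.D k : ℕ) : ℝ) := fun k => by positivity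
  have hvb : ∀ β : Bool, 0 ≤ vb β ∧ vb β ≤ 1 := by
    intro β; cases β <;> simp [vb]
  have hrng : ∀ i, (i = s ∨ i = d) → ∀ tr : Fin 5, 0 ≤ stk z i tr ∧ stk z i tr ≤ mm + 1/2 ∧
      (tr.1 < 2 → stk z i tr ≤ 5/4) := by
    rintro i (rfl | rfl) tr
    · have b0 := hvb a.b
      have b1 := hvb a.c
      have x0 := hxl 0
      have x1 := hxl 1
      have x2 := hxl 2
      have x3 := hxl 3
      have x4 := hxl 4
      have d0 := haR 0
      have d1 := haR 1
      have d2 := haR 2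
      have d0' := haR0 0
      have d1' := haR0 1
      have d2' := haR0 2
      fin_cases tr
      · show 0 ≤ stk z i 0 ∧ stk z i 0 ≤ mm + 1/2 ∧ (_ → stk z i 0 ≤ 5/4)
        rw [zs0, hmm]
        exact ⟨by linarith, by linarith, fun _ => by linarith⟩
      · show 0 ≤ stk z i 1 ∧ stk z i 1 ≤ mm + 1/2 ∧ (_ → stk z i 1 ≤ 5/4)
        rw [zs1, hmm]
        exact ⟨by linarith, by linarith, fun _ => by linarith⟩
      · show 0 ≤ stk z i 2 ∧ stk z i 2 ≤ mm + 1/2 ∧ (2 < 2 → stk z i 2 ≤ 5/4)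
        rw [zs2]
        exact ⟨by linarith, by linarith, fun h => absurd h (by norm_num)⟩
      · show 0 ≤ stk z i 3 ∧ stk z i 3 ≤ mm + 1/2 ∧ (3 < 2 → stk z i 3 ≤ 5/4)
        rw [zs3]
        exact ⟨by linarith, by linarith, fun h => absurd h (by norm_num)⟩
      · show 0 ≤ stk z i 4 ∧ stk z i 4 ≤ mm + 1/2 ∧ (4 < 2 → stk z i 4 ≤ 5/4)
        rw [zs4]
        exact ⟨by linarith, by linarith, fun h => absurd h (by norm_num)⟩
    · have h1 := hy tr
      refine ⟨h1.1, by linarith [h1.2], fun ht => ?_⟩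
      have : tr = 0 ∨ tr = 1 := by
        rcases tr with ⟨n, hn⟩
        simp only at ht
        have : n = 0 ∨ n = 1 := by omega
        rcases this with rfl | rfl
        · left; rfl
        · right; rfl
      rcases this with rfl | rfl
      · linarith [hy01.1]
      · linarith [hy01.2]
  have h0 : M0 cc cx s d z = z := by
    unfold M0
    funext q
    rcases q with ⟨i, tr⟩ | k
    · show (if i = s ∨ i = d then
        (if tr.1 < 2 then cc.Φ 1 (stk z i tr) else cx.Φ 1 (stk z i tr)) else stk z i tr) = stk z i tr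
      split_ifs with h1 h2
      · obtain ⟨g1, g2, g3⟩ := hrng i h1 tr
        exact cc.fix 1 _ (by linarith) (g3 h2)
      · obtain ⟨g1, g2, g3⟩ := hrng i h1 tr
        exact cx.fix 1 _ (by linarith) g2
      · rfl
    · rfl
  obtain ⟨z1, hz1⟩ : ∃ z1, z1 = z + f1 s d z := ⟨_, rfl⟩
  have s1 : ∀ i tr, stk z1 i tr = stk z i tr := by
    intro i tr
    rw [hz1]
    show z (Sum.inl (i, tr)) + 0 = z (Sum.inl (i, tr))
    rw [add_zero]
  have r1 : ∀ k, reg z1 k = reg z k + ![0, Sc (stk z s 0), Sc (stk z s 1), Sc (stk z d 1),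
    S1 (stk z s 2), S1 (stk z s 3), S1 (stk z s 4),
    S2 (stk z s 2), S2 (stk z s 3), S2 (stk z s 4), 0, 0] k := by
    intro k
    rw [hz1]
    rfl
  obtain ⟨z2, hz2⟩ : ∃ z2, z2 = z1 + f2 d z1 := ⟨_, rfl⟩
  have s2 : ∀ i tr, stk z2 i tr = stk z i tr := by
    intro i tr
    rw [hz2, ← s1 i tr]
    show z1 (Sum.inl (i, tr)) + 0 = z1 (Sum.inl (i, tr))
    rw [add_zero]
  have r2 : ∀ k, reg z2 k = reg z1 k + ![0, 0, 0, 0, 0, 0, 0, 0, 0, 0,
    (1 - Sc (reg z1 1)) * (gT (stk z1 d 0) * cT (Qx (reg z1 6)) (stk z1 d 2) -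
      gt (stk z1 d 0) * bt (Qx (reg z1 6)) (stk z1 d 2)),
    (1 - Sc (reg z1 1)) * (gt (stk z1 d 0) * ct (Qx (reg z1 6)) (stk z1 d 2) -
      gT (stk z1 d 0) * bT (Qx (reg z1 6)) (stk z1 d 2))] k := by
    intro k
    rw [hz2]
    rfl
  obtain ⟨z3, hz3⟩ : ∃ z3, z3 = z2 + f3 b s d z2 := ⟨_, rfl⟩
  have s3 : ∀ i tr, stk z3 i tr = stk z i tr + (if i = s then
      -(Wt b z2 * ![Sc (reg z2 1), Sc (reg z2 2), Qx (reg z2 7), Qx (reg z2 8), Qx (reg z2 9)] tr)
    else if i = d ∧ tr = 2 then -(Wt b z2 * (bb * Sg (reg z2 10))) else 0) := by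
    intro i tr
    rw [hz3, ← s2 i tr]
    rfl
  have r3 : ∀ k, reg z3 k = reg z2 k := by
    intro k
    rw [hz3]
    show z2 (Sum.inr k) + 0 = z2 (Sum.inr k)
    rw [add_zero]
  obtain ⟨z4, hz4⟩ : ∃ z4, z4 = M4 b s d z3 := ⟨_, rfl⟩
  have s4 : ∀ i tr, stk z4 i tr = if i = s then Real.exp (Wt b z3 * Real.log lam) * stk z3 i tr
    else if i = d then Real.exp (-(Wt b z3 * Real.log lam)) * stk z3 i tr
    else stk z3 i tr := by
    intro i tr
    rw [hz4]
    rfl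
  have r4 : ∀ k, reg z4 k = reg z2 k := by
    intro k
    rw [← r3 k, hz4]
    rfl
  -- readings
  have rr : ∀ k, k ≠ 0 → -(1/16) ≤ reg z k ∧ reg z k ≤ 1/16 := fun k hk => abs_le.1 (hR k hk)
  have q1 : Sc (reg z1 1) = vb a.b := by
    have e1 : Sc (stk z s 0) = vb a.b := by
      apply X06_Sc
      rw [zs0, add_sub_cancel_left, abs_of_nonneg (hxl 0).1]
      linarith [(hxl 0).2]
    have e2 : reg z1 1 = reg z 1 + vb a.b := by rw [r1 1, ← e1]; rfl
    apply X06_Sc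
    rw [e2, add_sub_cancel_right, abs_le]
    have := rr 1 (by decide)
    exact ⟨by linarith, by linarith⟩
  have q2 : Sc (reg z1 2) = vb a.c := by
    have e1 : Sc (stk z s 1) = vb a.c := by
      apply X06_Sc
      rw [zs1, add_sub_cancel_left, abs_of_nonneg (hxl 1).1]
      linarith [(hxl 1).2]
    have e2 : reg z1 2 = reg z 2 + vb a.c := by rw [r1 2, ← e1]; rfl
    apply X06_Sc
    rw [e2, add_sub_cancel_right, abs_le]
    have := rr 2 (by decide)
    exact ⟨by linarith, by linarith⟩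
  have q3 : a.b = false → Sc (reg z1 3) = vb e.c := by
    intro hab
    have g := hye hab 1
    have g' : 0 ≤ stk z d 1 - vb e.c ∧ stk z d 1 - vb e.c ≤ 1/16 := g
    have e1 : Sc (stk z d 1) = vb e.c := by
      apply X06_Sc
      rw [abs_of_nonneg g'.1]
      linarith [g'.2]
    have e2 : reg z1 3 = reg z 3 + vb e.c := by rw [r1 3, ← e1]; rfl
    apply X06_Sc
    rw [e2, add_sub_cancel_right, abs_le]
    have := rr 3 (by decide)
    exact ⟨by linarith, by linarith⟩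
  have qS1 : ∀ (k : Fin 3) (t : ℝ), t = a.D k + x (k.natAdd 2) / lam → S1 t = a.D k ∧ S2 t = a.D k := by
    intro k t ht
    have h1 := hxl (k.natAdd 2)
    exact ⟨X06_S1 (ha k) (by rw [ht]; linarith) (by rw [ht]; linarith),
      X06_S2 (ha k) (by rw [ht]; linarith) (by rw [ht]; linarith)⟩
  have g2 := qS1 0 _ zs2
  have g3 := qS1 1 _ zs3
  have g4 := qS1 2 _ zs4
  have qQ : ∀ (k : Fin 12) (n : Fin 3), k ≠ 0 → reg z1 k = reg z k + a.D n →
      Qx (reg z1 k) = a.D n := by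
    intro k n hk h
    apply X06_Qx (ha n)
    rw [h, add_sub_cancel_right]
    exact hR k hk
  have q4 : Qx (reg z1 4) = a.D 0 := qQ 4 0 (by decide) (by rw [r1 4, X06_v4, g2.1])
  have q5 : Qx (reg z1 5) = a.D 1 := qQ 5 1 (by decide) (by rw [r1 5, X06_v5, g3.1])
  have q6 : Qx (reg z1 6) = a.D 2 := qQ 6 2 (by decide) (by rw [r1 6, X06_v6, g4.1])
  have q7 : Qx (reg z1 7) = a.D 0 := qQ 7 0 (by decide) (by rw [r1 7, X06_v7, g2.2])
  have q8 : Qx (reg z1 8) = a.D 1 := qQ 8 1 (by decide) (by rw [r1 8, X06_v8, g3.2])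
  have q9 : Qx (reg z1 9) = a.D 2 := qQ 9 2 (by decide) (by rw [r1 9, X06_v9, g4.2])
  have k0 : reg z2 0 = reg z 0 := by
    rw [r2 0, r1 0]
    show reg z 0 + 0 + 0 = reg z 0
    rw [add_zero, add_zero]
  have k1 : reg z2 1 = reg z1 1 := by rw [r2 1]; exact add_zero _
  have k2 : reg z2 2 = reg z1 2 := by rw [r2 2]; exact add_zero _
  have k3 : reg z2 3 = reg z1 3 := by rw [r2 3]; exact add_zero _
  have k4 : reg z2 4 = reg z1 4 := by rw [r2 4]; exact add_zero _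
  have k5 : reg z2 5 = reg z1 5 := by rw [r2 5]; exact add_zero _
  have k6 : reg z2 6 = reg z1 6 := by rw [r2 6]; exact add_zero _
  have k7 : reg z2 7 = reg z1 7 := by rw [r2 7]; exact add_zero _
  have k8 : reg z2 8 = reg z1 8 := by rw [r2 8]; exact add_zero _
  have k9 : reg z2 9 = reg z1 9 := by rw [r2 9]; exact add_zero _
  have kT : (1 - Sc (reg z1 1)) * (gT (stk z1 d 0) * cT (Qx (reg z1 6)) (stk z1 d 2) -
      gt (stk z1 d 0) * bt (Qx (reg z1 6)) (stk z1 d 2)) = (tt a e : ℝ) - uu a e ∧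
      (1 - Sc (reg z1 1)) * (gt (stk z1 d 0) * ct (Qx (reg z1 6)) (stk z1 d 2) -
      gT (stk z1 d 0) * bT (Qx (reg z1 6)) (stk z1 d 2)) = (tt a e : ℝ) - uu a e := by
    rw [q1, q6, s1, s1]
    cases hb : a.b
    · have h0 : 0 ≤ stk z d 0 - vb e.b ∧ stk z d 0 - vb e.b ≤ 1/16 := hye hb 0
      have h2 : 0 ≤ stk z d 2 - e.D 0 ∧ stk z d 2 - e.D 0 ≤ 1/16 := hye hb 2
      have h3 := X06_gT h0.1 h0.2
      have h4 := X06_cT (ha 2) (he 0) (t := stk z d 2) (by linarith [h2.1]) (by linarith [h2.2])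
      have h5 := X06_ct (ha 2) (he 0) (t := stk z d 2) (by linarith [h2.1]) (by linarith [h2.2])
      have h4' := Y06_bT (a := a.D 2) (b := e.D 0) (t := stk z d 2) (by linarith [h2.1])
        (by linarith [h2.2])
      have h5' := Y06_bt (a := a.D 2) (b := e.D 0) (t := stk z d 2) (by linarith [h2.1])
        (by linarith [h2.2])
      have h6 : X06_cb (a.D 2) (e.D 0) = tt a e := by
        unfold X06_cb tt
        simp [hb]
      have h7 : Y06_bb (a.D 2) (e.D 0) = uu a e := by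
        unfold Y06_bb uu
        simp [hb]
      rw [h3.1, h3.2, h4, h5, h4', h5', h6, h7]
      simp [vb]
    · have h6 : tt a e = 0 := by
        unfold tt
        simp [hb]
      have h7 : uu a e = 0 := by
        unfold uu
        simp [hb]
      rw [h6, h7]
      simp [vb]
  have hSc : ∀ k : Fin 12, k ≠ 0 → reg z2 k = reg z k + ((tt a e : ℝ) - uu a e) →
      Sg (reg z2 k) = (tt a e : ℝ) - uu a e := by
    intro k hk h
    apply Y06_Sg a e
    rw [h, add_sub_cancel_right]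
    linarith [hR k hk]
  have q10 : Sg (reg z2 10) = (tt a e : ℝ) - uu a e := by
    apply hSc 10 (by decide)
    rw [r2 10, r1 10, ← kT.1]
    show reg z 10 + 0 + _ = _
    rw [add_zero]
    rfl
  have q11 : Sg (reg z2 11) = (tt a e : ℝ) - uu a e := by
    apply hSc 11 (by decide)
    rw [r2 11, r1 11, ← kT.2]
    show reg z 11 + 0 + _ = _
    rw [add_zero]
    rfl
  have w2 : Wt b z2 = 1 := by rw [← hw]; unfold Wt; rw [k0]
  have w3 : Wt b z3 = 1 := by rw [← hw]; unfold Wt; rw [r3, k0]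
  have w4 : Wt b z4 = 1 := by rw [← hw]; unfold Wt; rw [r4, k0]
  have hexp1 : Real.exp (1 * Real.log lam) = lam := by rw [one_mul, Real.exp_log hlam0]
  have hexp2 : Real.exp (-(1 * Real.log lam)) = lam⁻¹ := by
    rw [one_mul, Real.exp_neg, Real.exp_log hlam0]
  have hp : pushed (if r then 1 else 0) z4 = (newc r a e).val := by
    obtain ⟨hDle, hDeq⟩ := Y06_D a e ha
    have hG := Y06_GG a.D (a.D 2 + tt a e - uu a e) ((tt a e : ℝ) - uu a e) ha hDle hDeq
    have hG' : ∀ k : Fin 3, Qx (GG (a.D 0) (a.D 1) (a.D 2) ((tt a e : ℝ) - uu a e) k *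
        (1 - (if r then 1 else 0)))
        = (((if r then 0 else carry a.D (a.D 2 + tt a e - uu a e)) : Fin 3 → ℕ) k : ℕ) := by
      intro k
      rw [(hG k).1]
      cases r
      · simp only [Bool.false_eq_true, if_false, sub_zero, mul_one]
        apply X06_Qx (hG k).2
        simp
      · simp only [if_true, sub_self, mul_zero]
        show Qx 0 = ((0 : ℕ) : ℝ)
        apply X06_Qx (Nat.zero_le _)
        simp
    unfold pushed
    rw [r4, r4, r4, r4, r4, r4, k1, k3, k4, k5, k6, q1, q4, q5, q6, q11, hG' 0, hG' 1, hG' 2]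
    funext tr
    fin_cases tr
    · show 1 - vb a.b = vb (!a.b)
      cases a.b <;> simp [vb]
    · show (1 - vb a.b) * (1 - Sc (reg z1 3)) = vb (!a.b && !e.c)
      cases hb : a.b
      · rw [q3 hb]
        cases e.c <;> simp [vb]
      · simp [vb]
    · rfl
    · rfl
    · rfl
  have hfin : cm cc cx b s d (if r then 1 else 0) z
      = M6 (z4 + f5 b d (if r then 1 else 0) z4) := by
    rw [hz4, hz3, hz2, hz1]
    unfold cm
    rw [h0]
  rw [hfin]
  funext i tr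
  have s5 : stk (M6 (z4 + f5 b d (if r then 1 else 0) z4)) i tr = stk z4 i tr +
      (if i = d then Wt b z4 * pushed (if r then 1 else 0) z4 tr else 0) := rfl
  rw [s5, hp, w4, s4, w3, s3, w2, hexp1, hexp2, k1, k2, k7, k8, k9, q1, q2, q7, q8, q9, q10]
  by_cases his : i = s
  · subst his
    rw [if_pos rfl, if_pos rfl, if_neg hsd, if_pos rfl, hz tr, one_mul, add_zero]
    show lam * (a.val tr + x tr / lam + -(a.val tr)) = x tr
    field_simp
    ring
  · rw [if_neg his, if_neg his, if_neg his]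
    by_cases hid : i = d
    · subst hid
      rw [if_pos rfl, if_pos rfl, if_pos rfl, one_mul]
      by_cases h2 : tr = 2
      · subst h2
        rw [if_pos ⟨rfl, rfl⟩, if_pos rfl]
        field_simp
        ring
      · rw [if_neg (fun h => h2 h.2), if_neg h2]
        field_simp
        ring
    · rw [if_neg hid, if_neg hid, if_neg hid, if_neg (fun h => hid h.1), add_zero, add_zero]

end Pool.Agent.Y203.QC
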